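import Pool.Agent.H.MP_bc4532_gt.Main

namespace Pool.Agent.Results.MP_bc4532_gt.No

open Pool.Agent.H.MP_bc4532_gt

theorem result (N : Type) [MetricSpace N] [CompactSpace N] [Nonempty N] (ε : ℝ) (hε : 0 < ε) :
    ∃ X : Set (WithLp 2 (UnitAddCircle × N)), X.Finite ∧ (∀ p, ∃ x ∈ X, dist p x < ε) ∧
      IsEmpty (ContinuousMap.HomotopyEquiv (VR X (1 / 2))
        (VR (WithLp 2 (UnitAddCircle × N)) (1 / 2))) :=
  main N ε hε

end Pool.Agent.Results.MP_bc4532_gt.No
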